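import Pool.Agent.Run7.h860.Hd.Opt

/-!
# Project Hd (helper860), piece PG: Dirichlet's box principle for integral polynomials
-/

set_option autoImplicit false

namespace Pool.Agent.Run7.h300.Hd

theorem pg (d : ℕ) (α : ℝ) : ∃ K : ℝ, 0 < K ∧ ∀ Q : ℕ, 1 ≤ Q →
    ∃ c : Fin (d + 1) → ℤ, c ≠ 0 ∧ (∀ i, |c i| ≤ (Q : ℤ)) ∧
      |∑ i, (c i : ℝ) * α ^ (i : ℕ)| ≤ K / (Q : ℝ) ^ d := by
  set A : ℝ := ∑ i : Fin (d + 1), |α| ^ (i : ℕ) with hA
  have hA0 : 0 ≤ A := Finset.sum_nonneg fun i _ => by positivity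
  refine ⟨2 * A + 1, by linarith, fun Q hQ => ?_⟩
  have hQ0 : (0 : ℝ) < Q := by exact_mod_cast hQ
  have hQd : (0 : ℝ) < (Q : ℝ) ^ d := by positivity
  set δ : ℝ := (2 * A + 1) / (Q : ℝ) ^ d with hδ
  have hδ0 : 0 < δ := by positivity
  let F : (Fin (d + 1) → Fin (Q + 1)) → ℝ := fun v => ∑ i, ((v i : ℕ) : ℝ) * α ^ (i : ℕ)
  have hF : ∀ v, |F v| ≤ A * Q := by
    intro v
    refine (Finset.abs_sum_le_sum_abs _ _).trans ?_
    rw [hA, Finset.sum_mul]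
    refine Finset.sum_le_sum fun i _ => ?_
    rw [abs_mul, abs_pow, Nat.abs_cast, mul_comm]
    refine mul_le_mul_of_nonneg_left ?_ (by positivity)
    exact_mod_cast Nat.lt_succ_iff.1 (v i).2
  have h0 : ∀ v, 0 ≤ (F v + A * Q) / δ := by
    intro v
    have := (abs_le.1 (hF v)).1
    exact div_nonneg (by linarith) hδ0.le
  have h1 : ∀ v, (F v + A * Q) / δ < ((Q ^ (d + 1) : ℕ) : ℝ) := by
    intro v
    have := (abs_le.1 (hF v)).2
    rw [div_lt_iff₀ hδ0, hδ]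
    push_cast
    have e : (Q : ℝ) ^ (d + 1) * ((2 * A + 1) / (Q : ℝ) ^ d) = (2 * A + 1) * Q := by
      field_simp
      ring
    rw [e]
    nlinarith
  let g : (Fin (d + 1) → Fin (Q + 1)) → Fin (Q ^ (d + 1)) := fun v =>
    ⟨⌊(F v + A * Q) / δ⌋₊, (Nat.floor_lt (h0 v)).2 (h1 v)⟩
  obtain ⟨u, v, huv, hg⟩ := Fintype.exists_ne_map_eq_of_card_lt g (by
    rw [Fintype.card_fin, Fintype.card_fun, Fintype.card_fin, Fintype.card_fin]
    exact Nat.pow_lt_pow_left (by omega) (by omega))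
  have hg' : ⌊(F u + A * Q) / δ⌋₊ = ⌊(F v + A * Q) / δ⌋₊ := congrArg Fin.val hg
  refine ⟨fun i => ((u i : ℕ) : ℤ) - ((v i : ℕ) : ℤ), ?_, ?_, ?_⟩
  · intro h
    apply huv
    funext i
    have := congrFun h i
    simp only [Pi.zero_apply] at this
    apply Fin.ext
    omega
  · intro i
    have h2 := (u i).2
    have h3 := (v i).2
    show |((u i : ℕ) : ℤ) - ((v i : ℕ) : ℤ)| ≤ (Q : ℤ)
    rw [abs_le]
    constructor <;> omega
  · have h2 : ∑ i : Fin (d + 1), ((((u i : ℕ) : ℤ) - ((v i : ℕ) : ℤ) : ℤ) : ℝ) * α ^ (i : ℕ) =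
        F u - F v := by
      show _ = ∑ i, ((u i : ℕ) : ℝ) * α ^ (i : ℕ) - ∑ i, ((v i : ℕ) : ℝ) * α ^ (i : ℕ)
      rw [← Finset.sum_sub_distrib]
      refine Finset.sum_congr rfl fun i _ => ?_
      push_cast
      ring
    rw [h2]
    have a1 := Nat.floor_le (h0 u)
    have a2 := Nat.lt_floor_add_one ((F u + A * Q) / δ)
    have a3 := Nat.floor_le (h0 v)
    have a4 := Nat.lt_floor_add_one ((F v + A * Q) / δ)
    rw [hg'] at a1 a2
    have e1 : F u + A * Q = (F u + A * Q) / δ * δ := by field_simp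
    have e2 : F v + A * Q = (F v + A * Q) / δ * δ := by field_simp
    have e3 : F u - F v = ((F u + A * Q) / δ - (F v + A * Q) / δ) * δ := by
      rw [sub_mul, ← e1, ← e2]
      ring
    rw [e3, abs_mul, abs_of_pos hδ0]
    have h5 : |(F u + A * Q) / δ - (F v + A * Q) / δ| ≤ 1 := by
      rw [abs_le]
      constructor <;> linarith
    calc _ ≤ 1 * δ := mul_le_mul_of_nonneg_right h5 hδ0.le
      _ = δ := one_mul δ

theorem t_PG : Pool.Agent.Run7.h860.Hd.S_PG := pg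

end Pool.Agent.Run7.h300.Hd
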